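import Pool.Agent.H.MP_f59e5e_pr.A

namespace Pool.Agent.H.MP_e6ac48_pr
open MeasureTheory Pool.Agent.H.MP_f59e5e_pr

instance (k : ℕ) : Fact ((0 : ℝ) < (MM k : ℝ)) := ⟨by exact_mod_cast Nat.pos_of_ne_zero (NeZero.ne _)⟩

abbrev GG := ∀ k, AddCircle (MM k : ℝ)

def line : ℝ →+ GG where
  toFun t := fun _ => (t : AddCircle _)
  map_zero' := by ext k; simp
  map_add' a b := by ext k; simp

theorem line_cont : Continuous line := continuous_pi fun _ => AddCircle.continuous_mk' _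

noncomputable def KK : AddSubgroup GG := line.range.topologicalClosure

instance : CompactSpace KK :=
  isCompact_iff_compactSpace.1 (AddSubgroup.isClosed_topologicalClosure _).isCompact
instance (k : ℕ) : SecondCountableTopology (AddCircle (MM k : ℝ)) :=
  QuotientAddGroup.instSecondCountableTopology _
instance : SecondCountableTopology KK :=
  inferInstanceAs (SecondCountableTopology (KK : Set GG))
noncomputable instance : MeasurableSpace KK := borel _
instance : BorelSpace KK := ⟨rfl⟩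

noncomputable def PP : Measure KK := Measure.addHaarMeasure ⊤

instance : IsProbabilityMeasure PP := ⟨by
  have := Measure.addHaarMeasure_self (K₀ := (⊤ : TopologicalSpace.PositiveCompacts KK))
  simpa [PP] using this⟩
instance : PP.IsAddLeftInvariant := by unfold PP; infer_instance

noncomputable def el (n : ℕ → ℕ) : GG := fun k => ((n k + √2 : ℝ) : AddCircle _)

theorem crt (n : ℕ → ℕ) (I : Finset ℕ) : ∃ c : ℕ, ∀ k ∈ I, el n k = line (c + √2) k := by
  obtain ⟨c, hc⟩ := Nat.chineseRemainderOfFinset n MM I (fun i _ => NeZero.ne _)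
    (fun a _ b _ h => Nat.pairwise_coprime_fermatNumber (by omega : a + 5 ≠ b + 5))
  refine ⟨c, fun k hk => ?_⟩
  obtain ⟨z, hz⟩ := (hc k hk).dvd
  have : (n k + √2 : ℝ) = (c + √2) + z • (MM k : ℝ) := by
    have : ((n k : ℤ) : ℝ) - (c : ℤ) = (MM k : ℤ) * z := by exact_mod_cast hz
    simp only [Int.cast_natCast, zsmul_eq_mul] at this ⊢
    linarith
  show ((n k + √2 : ℝ) : AddCircle (MM k : ℝ)) = ((c + √2 : ℝ) : AddCircle (MM k : ℝ))
  rw [this, AddCircle.coe_add, AddCircle.coe_zsmul, AddCircle.coe_period, smul_zero, add_zero]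

theorem el_mem (n : ℕ → ℕ) : el n ∈ KK := by
  refine mem_closure_iff.2 (fun U hU hy => ?_)
  obtain ⟨I, u, h1, h2⟩ := isOpen_pi_iff.1 hU _ hy
  obtain ⟨c, hc⟩ := crt n I
  exact ⟨line (c + √2), h2 (fun j hj => hc j hj ▸ (h1 j hj).2), ⟨_, rfl⟩⟩

theorem line_mem (t : ℝ) : line t ∈ KK := AddSubgroup.le_topologicalClosure _ ⟨t, rfl⟩

theorem el_dense (n : ℕ → ℕ) : DenseRange (fun j : ℤ => j • (⟨el n, el_mem n⟩ : KK)) := by
  have key : ∀ t, line t ∈ closure (Set.range (fun j : ℤ => j • el n)) := fun t => by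
    refine mem_closure_iff.2 (fun U hU hy => ?_)
    obtain ⟨I, u, h1, h2⟩ := isOpen_pi_iff.1 hU _ hy
    obtain ⟨c, hc⟩ := crt n I
    have hN : (∏ k ∈ I, MM k) ≠ 0 := Finset.prod_ne_zero_iff.2 (fun k _ => NeZero.ne _)
    have hd : Dense (AddSubgroup.closure {c + √2, ((∏ k ∈ I, MM k : ℕ) : ℝ)} : Set ℝ) :=
      dense_addSubgroupClosure_pair_iff.2
        ((irrational_sqrt_two.natCast_add c).div_natCast hN)
    have ho : IsOpen (line ⁻¹' ((I : Set ℕ).pi u)) :=
      (isOpen_set_pi I.finite_toSet (fun j hj => (h1 j hj).1)).preimage line_cont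
    obtain ⟨s, hs, hs'⟩ := hd.inter_open_nonempty _ ho ⟨t, fun j hj => (h1 j hj).2⟩
    obtain ⟨a, b, rfl⟩ := AddSubgroup.mem_closure_pair.1 hs'
    refine ⟨a • el n, h2 (fun j hj => ?_), ⟨a, rfl⟩⟩
    have e := hs j hj
    obtain ⟨d, hd⟩ := Finset.dvd_prod_of_mem MM hj
    have e2 : line ((∏ k ∈ I, MM k : ℕ) : ℝ) j = 0 := by
      show (((∏ k ∈ I, MM k : ℕ) : ℝ) : AddCircle (MM j : ℝ)) = 0
      rw [hd, mul_comm, Nat.cast_mul, ← nsmul_eq_mul, AddCircle.coe_nsmul, AddCircle.coe_period,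
        smul_zero]
    rwa [map_add, map_zsmul, map_zsmul, Pi.add_apply, Pi.smul_apply, Pi.smul_apply, e2, smul_zero,
      add_zero, ← hc j hj] at e
  intro y
  rw [Topology.IsEmbedding.subtypeVal.closure_eq_preimage_closure_image, ← Set.range_comp]
  have : (KK : Set GG) ⊆ closure (Set.range (fun j : ℤ => j • el n)) :=
    closure_minimal (by rintro _ ⟨t, rfl⟩; exact key t) isClosed_closure
  exact this y.2

noncomputable def aa : KK := ⟨el (fun k => rr k ^ 6), el_mem _⟩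
noncomputable def ln (t : ℝ) : KK := ⟨line t, line_mem t⟩
noncomputable def th (x : ℤ) (t : ℝ) (ω : KK) : KK := (x • aa + ln t) + ω

theorem th_add (x y : ℤ) (s t : ℝ) : th (x + y) (s + t) = th x s ∘ th y t := by
  ext1 ω
  have : ln (s + t) = ln s + ln t := Subtype.ext (map_add line s t)
  simp only [th, Function.comp, this, add_smul]
  abel

theorem th_mp (x : ℤ) (t : ℝ) : MeasurePreserving (th x t) PP PP := measurePreserving_add_left PP _

theorem erg_time (F : Set KK) (hF : MeasurableSet F) (h : ∀ t, th 0 t ⁻¹' F = F) :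
    PP F = 0 ∨ PP F = 1 := by
  refine (ergodic_add_left_of_denseRange_zsmul (el_dense 0) PP).toPreErgodic.prob_eq_zero_or_one hF ?_
  have : th 0 √2 = fun ω => (⟨el 0, el_mem 0⟩ : KK) + ω := by
    ext ω k; simp [th, ln, el, line]
  rw [← this, h]

theorem erg_space (F : Set KK) (hF : MeasurableSet F) (h : ∀ x, th x 0 ⁻¹' F = F) :
    PP F = 0 ∨ PP F = 1 := by
  refine (ergodic_add_left_of_denseRange_zsmul (el_dense (fun k => rr k ^ 6))
    PP).toPreErgodic.prob_eq_zero_or_one hF ?_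
  have : th 1 0 = fun ω => (⟨el (fun k => rr k ^ 6), el_mem _⟩ : KK) + ω := by
    ext ω k; simp [th, ln, aa]
  rw [← this, h]

def Win (k : ℕ) : Set KK := {ω | ∃ v : ℝ, 0 ≤ v ∧ v ≤ (rr k : ℝ) ^ 7 / 2 ∧ ω.1 k = (v : AddCircle _)}

theorem win_meas (k : ℕ) : MeasurableSet (Win k) := by
  have : Win k = (fun ω : KK => ω.1 k) ⁻¹' ((fun v : ℝ => (v : AddCircle (MM k : ℝ))) ''
      Set.Icc 0 ((rr k : ℝ) ^ 7 / 2)) := by
    ext ω; simp only [Win, Set.mem_ofPred_eq, Set.mem_preimage, Set.mem_image, Set.mem_Icc]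
    exact exists_congr fun v => by rw [and_assoc, eq_comm]
  rw [this]
  exact ((isCompact_Icc.image (AddCircle.continuous_mk' _)).isClosed.preimage
    ((continuous_apply k).comp continuous_subtype_val)).measurableSet

theorem th_app (x : ℤ) (t : ℝ) (ω : KK) (k : ℕ) (v : ℝ) (h : ω.1 k = (v : AddCircle _)) :
    (th x t ω).1 k = ((x * (rr k ^ 6 + √2) + t + v : ℝ) : AddCircle _) := by
  have : (th x t ω).1 k = x • el (fun k => rr k ^ 6) k + (t : AddCircle _) + ω.1 k := rfl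
  rw [this, h, el, ← AddCircle.coe_zsmul, ← AddCircle.coe_add, ← AddCircle.coe_add]
  simp

theorem win_le (k : ℕ) : PP (Win k) ≤ 16⁻¹ * 2⁻¹ ^ k := by
  have h16 : (16 : ℝ) ≤ rr k := by exact_mod_cast rr16 k
  have hd : Set.PairwiseDisjoint (Finset.range (rr k) : Set ℕ)
      (fun i => th 0 (-(i * (rr k : ℝ) ^ 7)) ⁻¹' Win k) := by
    intro i hi j hj hij
    rw [Function.onFun, Set.disjoint_left]
    rintro ω ⟨v, a1, a2, a3⟩ ⟨w, b1, b2, b3⟩
    obtain ⟨z, hz⟩ := QuotientAddGroup.mk_surjective (ω.1 k)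
    rw [th_app _ _ _ _ z hz.symm] at a3 b3
    have e : ((v + i * (rr k : ℝ) ^ 7 : ℝ) : AddCircle (MM k : ℝ)) = (w + j * (rr k : ℝ) ^ 7 : ℝ) := by
      rw [AddCircle.coe_add, AddCircle.coe_add, ← a3, ← b3, ← AddCircle.coe_add, ← AddCircle.coe_add]
      congr 1; ring
    have p : (0 : ℝ) < (rr k : ℝ) ^ 7 := by positivity
    have bd : ∀ (i : ℕ) (v : ℝ), i ∈ (Finset.range (rr k) : Set ℕ) → 0 ≤ v → v ≤ (rr k : ℝ) ^ 7 / 2 →
        v + i * (rr k : ℝ) ^ 7 ∈ Set.Ico (0 : ℝ) (0 + MM k) := fun i v hi a1 a2 => by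
      have : (i : ℝ) + 1 ≤ rr k := by exact_mod_cast Finset.mem_range.1 hi
      rw [MM_eq]; push_cast
      refine ⟨by positivity, ?_⟩
      have : (rr k : ℝ) ^ 8 = rr k * (rr k : ℝ) ^ 7 := by ring
      nlinarith
    have e2 := (AddCircle.coe_eq_coe_iff_of_mem_Ico (bd i v hi a1 a2) (bd j w hj b1 b2)).1 e
    rcases lt_or_gt_of_ne hij with h | h
    · have : (i : ℝ) + 1 ≤ j := by exact_mod_cast h
      nlinarith
    · have : (j : ℝ) + 1 ≤ i := by exact_mod_cast h
      nlinarith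
  have h1 := measure_biUnion_finset (μ := PP) hd (fun i _ => (th_mp _ _).measurable (win_meas k))
  simp only [(th_mp _ _).measure_preimage (win_meas k).nullMeasurableSet, Finset.sum_const,
    Finset.card_range, nsmul_eq_mul] at h1
  have h2 : (rr k : ENNReal) * PP (Win k) ≤ 1 := h1 ▸ prob_le_one
  have h3 : ((16 * 2 ^ k : ℕ) : ENNReal) * PP (Win k) ≤ 1 :=
    le_trans (by gcongr; exact rr_ge k) h2
  rw [← ENNReal.inv_pow, ← ENNReal.mul_inv (by simp) (by simp), ENNReal.le_inv_iff_mul_le, mul_comm]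
  exact_mod_cast h3

noncomputable def xi (ω : KK) (x : ℤ) (t : ℝ) : ℝ := (⋃ k, Win k).indicator 1 (th x t ω)

theorem xi_bd (ω : KK) (x : ℤ) (t : ℝ) : 0 ≤ xi ω x t ∧ xi ω x t ≤ 1 := by
  unfold xi Set.indicator
  split_ifs <;> simp

theorem xi_stat (ω : KK) (x y : ℤ) (s t : ℝ) : xi (th x s ω) y t = xi ω (x + y) (s + t) := by
  unfold xi
  rw [add_comm x, add_comm s, th_add]; rfl

theorem xi_meas (x : ℤ) : Measurable fun p : KK × ℝ => xi p.1 x p.2 := by
  have : Continuous fun p : KK × ℝ => th x p.2 p.1 := by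
    have : Continuous ln := line_cont.subtype_mk _
    unfold th
    fun_prop
  exact (measurable_one.indicator (MeasurableSet.iUnion win_meas)).comp this.measurable

theorem rho_le : ∫ ω, xi ω 0 0 ∂PP ≤ 1 / 8 := by
  have m := (th_mp 0 0).measurable (MeasurableSet.iUnion win_meas)
  have : (fun ω => xi ω 0 0) = (th 0 0 ⁻¹' ⋃ k, Win k).indicator 1 := rfl
  rw [this, integral_indicator_one m, Measure.real, (th_mp 0 0).measure_preimage
    (MeasurableSet.iUnion win_meas).nullMeasurableSet]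
  have h4 := (measure_iUnion_le (μ := PP) Win).trans (ENNReal.tsum_le_tsum win_le)
  rw [ENNReal.tsum_mul_left, ENNReal.tsum_geometric_two] at h4
  refine (ENNReal.toReal_mono (by finiteness) h4).trans ?_
  simp only [ENNReal.toReal_mul, ENNReal.toReal_inv, ENNReal.toReal_ofNat]
  norm_num

theorem xi_one (ω : KK) (k : ℕ) : ∃ v : ℝ, v ≤ 0 ∧ ∀ (x : ℤ) (t : ℝ),
    0 ≤ x * (rr k ^ 6 + √2) + t + v → x * (rr k ^ 6 + √2) + t + v ≤ (rr k : ℝ) ^ 7 / 2 →
    xi ω x t = 1 := by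
  obtain ⟨z, hz, e⟩ := AddCircle.eq_coe_Ico (ω.1 k)
  refine ⟨z - MM k, by have := hz.2; linarith, fun x t a b => ?_⟩
  have : ω.1 k = ((z - MM k : ℝ) : AddCircle _) := by
    rw [AddCircle.coe_sub, AddCircle.coe_period, sub_zero, e]
  have m : th x t ω ∈ Win k := ⟨_, a, b, th_app _ _ _ _ _ this⟩
  exact Set.indicator_of_mem (Set.mem_iUnion.2 ⟨k, m⟩) _

end Pool.Agent.H.MP_e6ac48_pr
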