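import Pool.Agent.H.MP_e6ac48_pr.D

namespace Pool.Agent.H.MP_e6ac48_pr
open MeasureTheory Set Real

variable {κ γ : ℝ} {ξ : ℤ → ℝ → ℝ} {t : ℝ}

structure Nice (κ γ : ℝ) (ξ : ℤ → ℝ → ℝ) : Prop where
  k0 : 0 ≤ κ
  g0 : 0 ≤ γ
  bd : ∀ x r, 0 ≤ ξ x r ∧ ξ x r ≤ 1
  ms : ∀ x, Measurable (ξ x)

theorem Nice.ii (h : Nice κ γ ξ) (x : ℤ) (a b : ℝ) : IntervalIntegrable (ξ x) volume a b :=
  (intervalIntegrable_const (c := (1 : ℝ))).mono_fun' (h.ms x).aestronglyMeasurable
    (Filter.Eventually.of_forall fun r => by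
      have := h.bd x r
      show ‖ξ x r‖ ≤ 1
      rw [Real.norm_eq_abs, abs_le]; constructor <;> linarith)

theorem Nice.int_bd (h : Nice κ γ ξ) (x : ℤ) {a b : ℝ} (hab : a ≤ b) :
    0 ≤ ∫ r in a..b, ξ x r ∧ ∫ r in a..b, ξ x r ≤ b - a := by
  refine ⟨intervalIntegral.integral_nonneg hab (fun r _ => (h.bd x r).1), ?_⟩
  have := intervalIntegral.integral_mono_on hab (h.ii x a b)
    (intervalIntegrable_const (c := (1 : ℝ))) (fun r _ => (h.bd x r).2)
  simpa using this

theorem lint (f : ℝ → ℝ) (hf : Continuous f) {s b : ℝ} (hsb : s ≤ b) (h0 : ∀ r ∈ Ioo s b, 0 ≤ f r) :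
    ∫⁻ r in Ioo s b, ENNReal.ofReal (f r) = ENNReal.ofReal (∫ r in s..b, f r) := by
  rw [intervalIntegral.integral_of_le hsb, integral_Ioc_eq_integral_Ioo,
    ofReal_integral_eq_lintegral_ofReal (hf.integrableOn_Icc.mono_set Ioo_subset_Icc_self)
    ((ae_restrict_iff' measurableSet_Ioo).2 (Filter.Eventually.of_forall h0))]

theorem lint_exp {c θ s b : ℝ} (hc : 0 ≤ c) (hθ : 0 ≤ θ) (hsb : s ≤ b) :
    ∫⁻ r in Ioo s b, ENNReal.ofReal (c * θ * exp (-θ * (r - s))) =
      ENNReal.ofReal (c * (1 - exp (-θ * (b - s)))) := by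
  rw [lint _ (by fun_prop) hsb (fun _ _ => by positivity)]
  congr 1
  have : ∀ r ∈ uIcc s b, HasDerivAt (fun r => -(c * exp (-θ * (r - s))))
      (c * θ * exp (-θ * (r - s))) r := fun r _ => by
    have := ((((hasDerivAt_id r).sub_const s).const_mul (-θ)).exp.const_mul c).neg
    exact this.congr_deriv (by simp only [id]; ring)
  rw [intervalIntegral.integral_eq_sub_of_hasDerivAt this
    (Continuous.intervalIntegrable (by fun_prop) _ _)]
  simp; ring

theorem Nice.dy_le (h : Nice κ γ ξ) (n : ℕ) : ∀ (x : ℤ) (s : ℝ), s ≤ t → dy κ γ ξ t n x s ≤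
    ENNReal.ofReal (exp (γ * (t - s)) * ((2 * κ * (t - s)) ^ n / n.factorial)) := by
  have k0 := h.k0
  induction n with
  | zero =>
    intro x s hs
    simp only [dy]
    split_ifs
    · refine ENNReal.ofReal_le_ofReal ?_
      simpa using mul_le_mul_of_nonneg_left (h.int_bd x hs).2 h.g0
    · exact zero_le
  | succ n ih =>
    intro x s hs
    rw [dy]
    refine le_trans (setLIntegral_mono' measurableSet_Ioo (g := fun r => ENNReal.ofReal
      (exp (γ * (t - s)) * (2 * κ) ^ (n + 1) / n.factorial * (t - r) ^ n)) (fun r hr => ?_)) ?_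
    · have p : 0 ≤ t - r := by linarith [hr.2]
      refine le_trans (mul_le_mul' (ENNReal.ofReal_le_ofReal (mul_le_mul_of_nonneg_right
        (exp_le_exp.2 (mul_le_mul_of_nonneg_left (h.int_bd x hr.1.le).2 h.g0)) k0))
        (add_le_add (ih _ r hr.2.le) (ih _ r hr.2.le))) (le_of_eq ?_)
      rw [← ENNReal.ofReal_add (by positivity) (by positivity), ← ENNReal.ofReal_mul (by positivity)]
      congr 1
      rw [show γ * (t - s) = γ * (r - s) + γ * (t - r) by ring, exp_add, mul_pow]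
      ring
    · rw [lint _ (by fun_prop) hs (fun r hr => by have : 0 ≤ t - r := by linarith [hr.2]
                                                  positivity),
        intervalIntegral.integral_const_mul,
        intervalIntegral.integral_comp_sub_left (fun x => x ^ n), integral_pow]
      refine le_of_eq ?_
      congr 1
      rw [Nat.factorial_succ, mul_pow (2 * κ), sub_self, zero_pow (Nat.succ_ne_zero n), sub_zero]
      generalize (2 * κ) ^ (n + 1) = A
      generalize (t - s) ^ (n + 1) = B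
      push_cast
      field_simp

theorem Nice.uu_le (h : Nice κ γ ξ) (ht : 0 ≤ t) : uu κ γ ξ t ≤ ENNReal.ofReal (exp (γ * t)) := by
  have k0 := h.k0
  have : ∑' n, dy κ γ ξ t n 0 0 ≤ ENNReal.ofReal (exp (γ * t) * exp (2 * κ * t)) := by
    refine (ENNReal.tsum_le_tsum (fun n => h.dy_le n 0 0 ht)).trans
      (ENNReal.tsum_le_of_sum_range_le (fun n => ?_))
    rw [← ENNReal.ofReal_sum_of_nonneg (fun _ _ => by rw [sub_zero]; positivity), ← Finset.mul_sum,
      sub_zero]
    exact ENNReal.ofReal_le_ofReal (mul_le_mul_of_nonneg_left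
      (Real.sum_le_exp_of_nonneg (by positivity) n) (exp_pos _).le)
  refine (mul_le_mul' le_rfl this).trans (le_of_eq ?_)
  rw [← ENNReal.ofReal_mul (exp_pos _).le, ← exp_add, ← exp_add]
  congr 2; ring

theorem Nice.cont (h : Nice κ γ ξ) (x : ℤ) : Continuous fun p : ℝ × ℝ => ∫ r in p.1..p.2, ξ x r := by
  have c := intervalIntegral.continuous_primitive (h.ii x) 0
  have : (fun p : ℝ × ℝ => ∫ r in p.1..p.2, ξ x r) =
      fun p => (∫ r in (0 : ℝ)..p.2, ξ x r) - ∫ r in (0 : ℝ)..p.1, ξ x r := by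
    ext p; rw [intervalIntegral.integral_interval_sub_left (h.ii _ _ _) (h.ii _ _ _)]
  rw [this]
  exact (c.comp continuous_snd).sub (c.comp continuous_fst)

theorem Nice.meas (h : Nice κ γ ξ) (n : ℕ) : ∀ x, Measurable (dy κ γ ξ t n x) := by
  induction n with
  | zero =>
    intro x
    have : Measurable fun s => ∫ r in s..t, ξ x r :=
      ((h.cont x).comp (f := fun s => (s, t)) (by fun_prop)).measurable
    show Measurable fun s => if x = 0 then ENNReal.ofReal (exp (γ * ∫ r in s..t, ξ x r)) else 0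
    split_ifs <;> fun_prop
  | succ n ih =>
    intro x
    have c := (h.cont x).measurable
    have i1 := ih (x + 1)
    have i2 := ih (x - 1)
    have : dy κ γ ξ t (n + 1) x = fun s => ∫⁻ r, {p : ℝ × ℝ | p.1 < p.2 ∧ p.2 < t}.indicator
        (fun p => ENNReal.ofReal (exp (γ * ∫ q in p.1..p.2, ξ x q) * κ) *
          (dy κ γ ξ t n (x + 1) p.2 + dy κ γ ξ t n (x - 1) p.2)) (s, r) := by
      ext s
      rw [dy, ← lintegral_indicator measurableSet_Ioo]
      rfl
    rw [this]
    refine Measurable.lintegral_prod_right' (Measurable.indicator (by fun_prop) ?_)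
    exact (measurableSet_lt measurable_fst measurable_snd).inter
      (measurableSet_lt measurable_snd measurable_const)

noncomputable def UU (κ γ : ℝ) (ξ : ℤ → ℝ → ℝ) (t : ℝ) (x : ℤ) (s : ℝ) : ENNReal :=
  ∑' n, dy κ γ ξ t n x s

theorem Nice.sg (h : Nice κ γ ξ) (x : ℤ) {s b : ℝ} (h1 : s ≤ b) (h2 : b ≤ t) :
    ENNReal.ofReal (exp (γ * ∫ q in s..b, ξ x q)) * UU κ γ ξ t x b +
      ∫⁻ r in Ioo s b, ENNReal.ofReal (exp (γ * ∫ q in s..r, ξ x q) * κ) *
        (UU κ γ ξ t (x + 1) r + UU κ γ ξ t (x - 1) r) ≤ UU κ γ ξ t x s := by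
  have add : ∀ r, exp (γ * ∫ q in s..r, ξ x q) =
      exp (γ * ∫ q in s..b, ξ x q) * exp (γ * ∫ q in b..r, ξ x q) := fun r => by
    rw [← exp_add, ← mul_add, intervalIntegral.integral_add_adjacent_intervals (h.ii _ _ _) (h.ii _ _ _)]
  have c : Measurable fun r => ∫ q in s..r, ξ x q :=
    ((h.cont x).comp (f := fun r => (s, r)) (by fun_prop)).measurable
  have e0 : ENNReal.ofReal (exp (γ * ∫ q in s..b, ξ x q)) * dy κ γ ξ t 0 x b = dy κ γ ξ t 0 x s := by
    simp only [dy]
    split_ifs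
    · rw [add t, ENNReal.ofReal_mul (exp_pos _).le]
    · simp
  have e1 : ∀ n, ENNReal.ofReal (exp (γ * ∫ q in s..b, ξ x q)) * dy κ γ ξ t (n + 1) x b +
      ∫⁻ r in Ioo s b, ENNReal.ofReal (exp (γ * ∫ q in s..r, ξ x q) * κ) *
        (dy κ γ ξ t n (x + 1) r + dy κ γ ξ t n (x - 1) r) ≤ dy κ γ ξ t (n + 1) x s := fun n => by
    rw [dy, dy, ← lintegral_const_mul' _ _ ENNReal.ofReal_ne_top]
    simp only [← mul_assoc, ← ENNReal.ofReal_mul (exp_pos _).le, ← add]
    rw [← lintegral_union measurableSet_Ioo (by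
      rw [Set.disjoint_left]; exact fun r a b => lt_asymm a.1 b.2)]
    exact lintegral_mono_set (union_subset (Ioo_subset_Ioo_left h1) (Ioo_subset_Ioo_right h2))
  have e2 := ENNReal.tsum_le_tsum e1
  rw [ENNReal.tsum_add, ENNReal.tsum_mul_left, ← lintegral_tsum (fun n => by
    have i1 := h.meas (t := t) n (x + 1)
    have i2 := h.meas (t := t) n (x - 1)
    exact Measurable.aemeasurable (by fun_prop))] at e2
  simp only [ENNReal.tsum_mul_left, ENNReal.tsum_add] at e2
  unfold UU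
  rw [tsum_eq_zero_add' (f := fun n => dy κ γ ξ t n x b) ENNReal.summable,
    tsum_eq_zero_add' (f := fun n => dy κ γ ξ t n x s) ENNReal.summable, mul_add, e0, add_assoc]
  exact add_le_add le_rfl e2

end Pool.Agent.H.MP_e6ac48_pr
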