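import Pool.Agent.H.MP_e6ac48_pr.B

namespace Pool.Agent.H.MP_e6ac48_pr
open MeasureTheory Set Real

variable {κ γ : ℝ} {ξ : ℤ → ℝ → ℝ} {t : ℝ}

theorem Nice.jump (h : Nice κ γ ξ) {κ' : ℝ} (hk : κ' ≤ κ) {x y : ℤ} (hy : y = x + 1 ∨ y = x - 1)
    {s a : ℝ} (h1 : s ≤ a) (h2 : a + 1 ≤ t) {c : ENNReal}
    (hc : ∀ r, a ≤ r → r ≤ a + 1 → c ≤ UU κ γ ξ t y r) :
    ENNReal.ofReal κ' * c ≤ UU κ γ ξ t x s := by
  refine le_trans ?_ (le_trans le_add_self (h.sg x (by linarith : s ≤ a + 1) h2))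
  refine le_trans ?_ (lintegral_mono_set (Ioo_subset_Ioo_left h1))
  refine le_trans (le_of_eq ?_) (setLIntegral_mono' measurableSet_Ioo
    (f := fun _ => ENNReal.ofReal κ' * c) (fun r hr => mul_le_mul' (ENNReal.ofReal_le_ofReal ?_) ?_))
  · simp
  · have := one_le_exp (mul_nonneg h.g0 (h.int_bd x (h1.trans hr.1.le)).1)
    have := h.k0
    nlinarith
  · have := hc r hr.1.le hr.2.le
    rcases hy with rfl | rfl
    · exact this.trans le_self_add
    · exact this.trans le_add_self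

theorem Nice.travel (h : Nice κ γ ξ) {κ' : ℝ} (hk : κ' ≤ κ) (y : ℤ) (c : ENNReal) (m : ℕ) :
    ∀ (x : ℤ) (a : ℝ), (x - y).natAbs = m → a + m + 1 ≤ t →
      (∀ r, a + m ≤ r → r ≤ a + m + 1 → c ≤ UU κ γ ξ t y r) →
      ∀ s, a ≤ s → s ≤ a + 1 → ENNReal.ofReal κ' ^ m * c ≤ UU κ γ ξ t x s := by
  induction m with
  | zero =>
    intro x a hx _ hc s h1 h2
    have : x = y := by omega
    subst this
    simpa using hc s (by simpa) (by simpa)
  | succ m ih =>
    intro x a hx ht hc s h1 h2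
    push_cast at ht hc
    have hm : (0 : ℝ) ≤ m := Nat.cast_nonneg m
    obtain ⟨x', e1, e2⟩ : ∃ x', (x' = x + 1 ∨ x' = x - 1) ∧ (x' - y).natAbs = m := by
      by_cases e : x < y
      · exact ⟨x + 1, Or.inl rfl, by omega⟩
      · exact ⟨x - 1, Or.inr rfl, by omega⟩
    rw [pow_succ', mul_assoc]
    exact h.jump hk e1 h2 (by linarith) (ih x' (a + 1) e2 (by linarith)
      (fun r a b => hc r (by linarith) (by linarith)))

theorem Nice.stay (h : Nice κ γ ξ) {s : ℝ} (hs : s ≤ t) : 1 ≤ UU κ γ ξ t 0 s := by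
  refine le_trans ?_ (ENNReal.le_tsum 0)
  simp only [dy, if_true]
  exact ENNReal.one_le_ofReal.2 (one_le_exp (mul_nonneg h.g0 (h.int_bd 0 hs).1))

noncomputable def hh (R : ℕ) (y : ℤ) : ℝ := max ((R : ℝ) ^ 2 - (y : ℝ) ^ 2) 0

theorem hh_bd (R : ℕ) (y : ℤ) : 0 ≤ hh R y ∧ hh R y ≤ (R : ℝ) ^ 2 :=
  ⟨le_max_right _ _, max_le (by nlinarith) (by positivity)⟩

theorem hh_zero {R : ℕ} {y : ℤ} (h : ¬ |y| < R) : hh R y = 0 := by
  have : (R : ℤ) ^ 2 ≤ y ^ 2 := by
    rw [← sq_abs y]; exact pow_le_pow_left₀ (by positivity) (not_lt.1 h) 2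
  have : (R : ℝ) ^ 2 ≤ (y : ℝ) ^ 2 := by exact_mod_cast this
  exact max_eq_right (by linarith)

theorem hh_sub {R : ℕ} {y : ℤ} (h : |y| < R) :
    (2 - 2 / R) * hh R y ≤ hh R (y + 1) + hh R (y - 1) := by
  have h0 := abs_nonneg y
  have h1 : (R : ℤ) + y ^ 2 ≤ (R : ℤ) ^ 2 := by rw [← sq_abs y]; nlinarith
  have h2 : (R : ℝ) + (y : ℝ) ^ 2 ≤ (R : ℝ) ^ 2 := by exact_mod_cast h1
  have h3 : (0 : ℝ) < R := by exact_mod_cast (h0.trans_lt h)
  have h4 : hh R y = (R : ℝ) ^ 2 - (y : ℝ) ^ 2 := max_eq_left (by linarith)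
  have h5 : (R : ℝ) ^ 2 - ((y + 1 : ℤ) : ℝ) ^ 2 ≤ hh R (y + 1) := le_max_left _ _
  have h6 : (R : ℝ) ^ 2 - ((y - 1 : ℤ) : ℝ) ^ 2 ≤ hh R (y - 1) := le_max_left _ _
  push_cast at h5 h6
  have h7 : 2 ≤ 2 / R * hh R y := by
    rw [div_mul_eq_mul_div, le_div_iff₀ h3, h4]; linarith
  nlinarith

theorem Nice.cmp (h : Nice κ γ ξ) {a b C : ℝ} (hb : b ≤ t) (z : ℤ) {R : ℕ} (hR : 1 ≤ R) (hC : 0 ≤ C)
    (h1 : ∀ x r, |x - z| < R → a ≤ r → r ≤ b → ξ x r = 1)
    (h2 : ∀ x, ENNReal.ofReal (C * hh R (x - z)) ≤ UU κ γ ξ t x b) (x : ℤ) (s : ℝ) (ha : a ≤ s)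
    (hs : s ≤ b) : ENNReal.ofReal (C * exp ((γ + κ * (2 - 2 / R)) * (b - s)) * hh R (x - z)) ≤
      UU κ γ ξ t x s := by
  have k0 := h.k0
  have g0 := h.g0
  have R1 : (1 : ℝ) ≤ R := by exact_mod_cast hR
  have t0 : 0 ≤ 2 - 2 / (R : ℝ) := by rw [sub_nonneg, div_le_iff₀ (by linarith)]; linarith
  have t1 : 0 ≤ 2 / (R : ℝ) := by positivity
  set θ := κ * (2 - 2 / R) with hθ
  have θ0 : 0 ≤ θ := by positivity
  have key : ∀ n : ℕ, ∀ x s, a ≤ s → s ≤ b → ENNReal.ofReal (C * exp ((γ + θ) * (b - s)) *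
      hh R (x - z)) ≤ UU κ γ ξ t x s +
        ENNReal.ofReal (C * R ^ 2 * (1 / 2) ^ n * exp ((γ + 4 * κ) * (b - s))) := by
    intro n
    induction n with
    | zero =>
      intro x s ha hs
      refine le_trans (ENNReal.ofReal_le_ofReal ?_) le_add_self
      have := hh_bd R (x - z)
      have e : exp ((γ + θ) * (b - s)) ≤ exp ((γ + 4 * κ) * (b - s)) :=
        exp_le_exp.2 (mul_le_mul_of_nonneg_right (by nlinarith) (by linarith))
      calc _ ≤ C * exp ((γ + 4 * κ) * (b - s)) * R ^ 2 := by gcongr; exact this.1; exact this.2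
        _ = _ := by ring
    | succ n ih =>
      intro x s ha hs
      by_cases hx : |x - z| < R
      swap
      · simp [hh_zero hx]
      have hb0 := (hh_bd R (x - z)).1
      have i1 : ∀ r, s ≤ r → r ≤ b → ∫ q in s..r, ξ x q = r - s := fun r r1 r2 => by
        rw [intervalIntegral.integral_congr (g := fun _ => (1 : ℝ)) (fun q hq => by
          rw [uIcc_of_le r1] at hq
          exact h1 x q hx (ha.trans hq.1) (hq.2.trans r2))]
        simp
      refine le_trans ?_ (add_le_add (h.sg x hs hb) le_rfl)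
      have e1 := lint_exp (c := C * exp ((γ + θ) * (b - s)) * hh R (x - z)) (by positivity) θ0 hs
      have e2 := lint_exp (c := C * R ^ 2 * (1 / 2) ^ (n + 1) * exp ((γ + 4 * κ) * (b - s)))
        (θ := 4 * κ) (by positivity) (by positivity) hs
      have e3 : C * exp ((γ + θ) * (b - s)) * hh R (x - z) = exp (γ * (b - s)) * (C * hh R (x - z)) +
          C * exp ((γ + θ) * (b - s)) * hh R (x - z) * (1 - exp (-θ * (b - s))) := by
        rw [show γ * (b - s) = (γ + θ) * (b - s) + -θ * (b - s) by ring, exp_add]; ring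
      have e4 : exp (-θ * (b - s)) ≤ 1 := exp_le_one_iff.2 (by nlinarith)
      rw [e3, ENNReal.ofReal_add (by positivity) (mul_nonneg (by positivity) (by linarith)), ← e1,
        ENNReal.ofReal_mul (exp_pos _).le, i1 b hs le_rfl, add_assoc]
      refine add_le_add (mul_le_mul' le_rfl (h2 x)) ?_
      refine le_trans ?_ (add_le_add le_rfl (e2.le.trans (ENNReal.ofReal_le_ofReal
        (mul_le_of_le_one_right (by positivity) (by linarith [exp_pos (-(4 * κ) * (b - s))])))))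
      rw [← lintegral_add_right _ (by fun_prop)]
      refine setLIntegral_mono' measurableSet_Ioo (fun r hr => ?_)
      have j1 := ih (x + 1) r (ha.trans hr.1.le) hr.2.le
      have j2 := ih (x - 1) r (ha.trans hr.1.le) hr.2.le
      have p1 := (hh_bd R (x + 1 - z)).1
      have p2 := (hh_bd R (x - 1 - z)).1
      rw [i1 r hr.1.le hr.2.le]
      have f1 : C * R ^ 2 * (1 / 2) ^ (n + 1) * exp ((γ + 4 * κ) * (b - s)) * (4 * κ) *
          exp (-(4 * κ) * (r - s)) = exp (γ * (r - s)) * κ *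
            (C * R ^ 2 * (1 / 2) ^ n * exp ((γ + 4 * κ) * (b - r)) +
              C * R ^ 2 * (1 / 2) ^ n * exp ((γ + 4 * κ) * (b - r))) := by
        have : exp ((γ + 4 * κ) * (b - s)) * exp (-(4 * κ) * (r - s)) =
            exp (γ * (r - s)) * exp ((γ + 4 * κ) * (b - r)) := by
          rw [← exp_add, ← exp_add]; congr 1; ring
        linear_combination (C * R ^ 2 * (1 / 2) ^ n * 2 * κ) * this
      have f2 : C * exp ((γ + θ) * (b - s)) * hh R (x - z) * θ * exp (-θ * (r - s)) ≤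
          exp (γ * (r - s)) * κ * (C * exp ((γ + θ) * (b - r)) * hh R (x + 1 - z) +
            C * exp ((γ + θ) * (b - r)) * hh R (x - 1 - z)) := by
        have : exp ((γ + θ) * (b - s)) * exp (-θ * (r - s)) =
            exp (γ * (r - s)) * exp ((γ + θ) * (b - r)) := by
          rw [← exp_add, ← exp_add]; congr 1; ring
        have q := hh_sub hx
        rw [show x - z + 1 = x + 1 - z by ring, show x - z - 1 = x - 1 - z by ring] at q
        calc _ = exp (γ * (r - s)) * κ * (C * exp ((γ + θ) * (b - r))) *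
              ((2 - 2 / R) * hh R (x - z)) := by
              linear_combination (C * hh R (x - z) * θ) * this
          _ ≤ exp (γ * (r - s)) * κ * (C * exp ((γ + θ) * (b - r))) *
              (hh R (x + 1 - z) + hh R (x - 1 - z)) := by gcongr
          _ = _ := by ring
      refine (ENNReal.ofReal_le_ofReal f2).trans ?_
      have p3 : 0 ≤ exp (γ * (r - s)) * κ := by positivity
      rw [f1, ENNReal.ofReal_mul p3, ENNReal.ofReal_mul p3, ENNReal.ofReal_add (by positivity)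
        (by positivity), ENNReal.ofReal_add (by positivity) (by positivity), ← mul_add,
        add_add_add_comm]
      exact mul_le_mul' le_rfl (add_le_add j1 j2)
  have lim : Filter.Tendsto (fun n : ℕ => UU κ γ ξ t x s +
      ENNReal.ofReal (C * R ^ 2 * (1 / 2) ^ n * exp ((γ + 4 * κ) * (b - s)))) Filter.atTop
      (nhds (UU κ γ ξ t x s + ENNReal.ofReal (C * R ^ 2 * 0 * exp ((γ + 4 * κ) * (b - s))))) :=
    tendsto_const_nhds.add (ENNReal.tendsto_ofReal (((tendsto_pow_atTop_nhds_zero_of_lt_one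
      (by norm_num) (by norm_num)).const_mul _).mul_const _))
  simpa using ge_of_tendsto' lim (fun n => key n x s ha hs)

end Pool.Agent.H.MP_e6ac48_pr
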