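import Mathlib

namespace Pool.Agent.H.MP_e6ac48_pr
open MeasureTheory

/-- Feynman-Kac weight of the walks on the integers that are at x at time s, make exactly n jumps
during (s,t), each to a neighbour at rate κ, and are at 0 at time t (without the factor for the
holding times) -/
noncomputable def dy (κ γ : ℝ) (ξ : ℤ → ℝ → ℝ) (t : ℝ) : ℕ → ℤ → ℝ → ENNReal
  | 0, x, s => if x = 0 then ENNReal.ofReal (Real.exp (γ * ∫ r in s..t, ξ x r)) else 0
  | n + 1, x, s => ∫⁻ r in Set.Ioo s t, ENNReal.ofReal (Real.exp (γ * ∫ q in s..r, ξ x q) * κ) *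
      (dy κ γ ξ t n (x + 1) r + dy κ γ ξ t n (x - 1) r)

/-- u(0,t) in dimension 1: the Feynman-Kac expectation, summed over the number of jumps -/
noncomputable def uu (κ γ : ℝ) (ξ : ℤ → ℝ → ℝ) (t : ℝ) : ENNReal :=
  ENNReal.ofReal (Real.exp (-(2 * κ * t))) * ∑' n, dy κ γ ξ t n 0 0

end Pool.Agent.H.MP_e6ac48_pr
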