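import Pool.Agent.H.MP_e6ac48_pr.C
import Pool.Agent.H.MP_e6ac48_pr.A

namespace Pool.Agent.H.MP_e6ac48_pr
open MeasureTheory Set Real Filter Pool.Agent.H.MP_f59e5e_pr

variable {κ γ : ℝ} {ξ : ℤ → ℝ → ℝ}

theorem Nice.lower (h : Nice κ γ ξ) {κ' l v : ℝ} {R : ℕ} (k0 : 0 < κ') (k1 : κ' ≤ κ) (k2 : κ' ≤ 1)
    (hl : 1 ≤ l) (hR : 1 ≤ R) (hv : v ≤ 0)
    (h1 : ∀ (x : ℤ) (r : ℝ), 0 ≤ x * l + r + v → x * l + r + v ≤ (2 * R + 1) * l → ξ x r = 1) :
    ∃ X : ℕ, ∀ (J : ℕ) (t : ℝ), J * (l + 1) + (2 * X + R + 1) ≤ t →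
      ENNReal.ofReal (κ' ^ (2 * X + R + 2 * J) * exp ((γ + κ * (2 - 2 / R)) * (l - 1) * J)) ≤
        UU κ γ ξ t 0 0 := by
  have R1 : (1 : ℝ) ≤ R := by exact_mod_cast hR
  have a0 : 0 ≤ (R * l - 1 - v) / (l + 1) := div_nonneg (by nlinarith) (by linarith)
  have a1 := Nat.le_ceil ((R * l - 1 - v) / (l + 1))
  have a2 := Nat.ceil_lt_add_one a0
  generalize ⌈(R * l - 1 - v) / (l + 1)⌉₊ = X at a1 a2
  rw [div_le_iff₀ (by linarith)] at a1
  rw [div_add_one (by linarith), lt_div_iff₀ (by linarith)] at a2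
  refine ⟨X, fun J t ht => ?_⟩
  have β0 : 0 ≤ γ + κ * (2 - 2 / R) := add_nonneg h.g0 (mul_nonneg h.k0 (by
    rw [sub_nonneg, div_le_iff₀ (by linarith)]; linarith))
  set β := γ + κ * (2 - 2 / R) with hβ
  have X0 : (0 : ℝ) ≤ X := Nat.cast_nonneg X
  have J0 : (0 : ℝ) ≤ J := Nat.cast_nonneg J
  have key : ∀ i j : ℕ, i + j = J → ∀ (x : ℤ) (r : ℝ), X + j * l ≤ r → r ≤ X + j * l + 1 →
      ENNReal.ofReal (κ' ^ (X + J + R) / R ^ 2 * (κ' * exp (β * (l - 1))) ^ i *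
        hh R (x - (X - j))) ≤ UU κ γ ξ t x r := by
    intro i
    induction i with
    | zero =>
      intro j e x r r1 r2
      rw [zero_add] at e
      subst e
      by_cases hx : |x - (X - j)| < R
      swap
      · simp [hh_zero hx]
      have m1 : x.natAbs ≤ X + j + R := by rw [abs_lt] at hx; omega
      have m2 : (x.natAbs : ℝ) ≤ X + j + R := by exact_mod_cast m1
      have := h.travel (t := t) k1 0 1 x.natAbs x (X + j * l) (by simp) (by linarith)
        (fun r _ b => h.stay (by linarith)) r r1 r2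
      rw [mul_one, ← ENNReal.ofReal_pow k0.le] at this
      refine le_trans (ENNReal.ofReal_le_ofReal ?_) this
      calc _ ≤ κ' ^ (X + j + R) / R ^ 2 * (κ' * exp (β * (l - 1))) ^ 0 * R ^ 2 := by
            gcongr; exact (hh_bd _ _).2
        _ = κ' ^ (X + j + R) := by field_simp
        _ ≤ _ := pow_le_pow_of_le_one k0.le k2 m1
    | succ i ih =>
      intro j e x r r1 r2
      have e' : (j : ℝ) + 1 ≤ J := by exact_mod_cast (by omega : j + 1 ≤ J)
      have j0 : (0 : ℝ) ≤ j := Nat.cast_nonneg j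
      have b1 : X + (j + 1) * l + 1 ≤ t := by nlinarith
      have := h.cmp (t := t) (a := X + j * l) (b := X + (j + 1) * l)
        (C := κ' * (κ' ^ (X + J + R) / R ^ 2 * (κ' * exp (β * (l - 1))) ^ i)) (by linarith)
        ((X : ℤ) - j) hR (by positivity) (fun y q hy q1 q2 => by
          rw [abs_lt] at hy
          have y1 : (X : ℝ) - j - R + 1 ≤ y := by exact_mod_cast (by omega : (X : ℤ) - j - R + 1 ≤ y)
          have y2 : (y : ℝ) ≤ X - j + R - 1 := by exact_mod_cast (by omega : y ≤ (X : ℤ) - j + R - 1)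
          exact h1 y q (by nlinarith) (by nlinarith)) (fun y => by
          rw [mul_assoc, ENNReal.ofReal_mul k0.le]
          refine h.jump k1 (Or.inr rfl) le_rfl b1 (fun q q1 q2 => ?_)
          have := ih (j + 1) (by omega) (y - 1) q (by push_cast; linarith) (by push_cast; linarith)
          rwa [show y - 1 - ((X : ℤ) - ((j + 1 : ℕ) : ℤ)) = y - (X - j) by push_cast; ring] at this)
        x r r1 (by linarith)
      refine le_trans (ENNReal.ofReal_le_ofReal ?_) this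
      refine mul_le_mul_of_nonneg_right ?_ (hh_bd _ _).1
      have : exp (β * (l - 1)) ≤ exp (β * (X + (j + 1) * l - r)) :=
        exp_le_exp.2 (mul_le_mul_of_nonneg_left (by linarith) β0)
      calc _ = κ' * (κ' ^ (X + J + R) / R ^ 2 * (κ' * exp (β * (l - 1))) ^ i) *
            exp (β * (l - 1)) := by ring
        _ ≤ _ := by gcongr
  have := h.travel (t := t) k1 X _ X 0 0 (by simp) (by nlinarith)
    (fun r a b => key J 0 rfl X r (by simpa using a) (by simpa using b)) 0 le_rfl (by norm_num)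
  rw [← ENNReal.ofReal_pow k0.le, ← ENNReal.ofReal_mul (by positivity)] at this
  refine le_trans (le_of_eq ?_) this
  congr 1
  have : hh R ((X : ℤ) - (X - (0 : ℕ))) = R ^ 2 := by simp [hh]
  rw [this, mul_pow, ← exp_nat_mul, mul_comm (J : ℝ)]
  field_simp
  ring

theorem Nice.log_lower (h : Nice κ γ ξ) (hk : 0 < κ) : ∃ D, ∀ (l v : ℝ) (R : ℕ), R ≤ l → 1 ≤ R →
    v ≤ 0 → (∀ (x : ℤ) (r : ℝ), 0 ≤ x * l + r + v → x * l + r + v ≤ (2 * R + 1) * l → ξ x r = 1) →
    ∃ c, ∀ᶠ t in atTop, (γ - D / R) * t - c ≤ log (uu κ γ ξ t).toReal := by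
  have k0 : 0 < min κ 1 := lt_min hk one_pos
  have L0 : log (min κ 1) ≤ 0 := log_nonpos k0.le (min_le_right _ _)
  refine ⟨2 * γ + 6 * κ - 2 * log (min κ 1), fun l v R hl hR hv h1 => ?_⟩
  have R1 : (1 : ℝ) ≤ R := by exact_mod_cast hR
  obtain ⟨X, hX⟩ := h.lower k0 (min_le_left _ _) (min_le_right _ _) (R1.trans hl) hR hv h1
  have g0 := h.g0
  have β0 : 0 ≤ γ + κ * (2 - 2 / R) := add_nonneg h.g0 (mul_nonneg h.k0 (by
    rw [sub_nonneg, div_le_iff₀ (by linarith)]; linarith))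
  have β1 : γ + κ * (2 - 2 / R) ≤ γ + 2 * κ := by
    have : 0 ≤ κ * (2 / R) := by positivity
    linarith
  refine ⟨(2 * X + R + 1 + l + 1) * (γ + κ * (2 - 2 / R)) - (2 * X + R) * log (min κ 1), ?_⟩
  filter_upwards [eventually_ge_atTop (2 * X + R + 1 : ℝ)] with t ht
  have t0 : 0 ≤ t := le_trans (by positivity) ht
  have a1 := Nat.floor_le (div_nonneg (sub_nonneg.2 ht) (by linarith : 0 ≤ l + 1))
  have a2 := Nat.lt_floor_add_one ((t - (2 * X + R + 1)) / (l + 1))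
  generalize ⌊(t - (2 * X + R + 1)) / (l + 1)⌋₊ = J at a1 a2
  rw [le_div_iff₀ (by linarith)] at a1
  rw [div_lt_iff₀ (by linarith)] at a2
  have b1 := mul_le_mul' (le_refl (ENNReal.ofReal (exp (-(2 * κ * t))))) (hX J t (by linarith))
  rw [← ENNReal.ofReal_mul (exp_pos _).le] at b1
  have b2 := (ENNReal.ofReal_le_iff_le_toReal
    (ne_top_of_le_ne_top ENNReal.ofReal_ne_top (h.uu_le t0))).1 b1
  refine le_trans ?_ (log_le_log (by positivity) b2)
  rw [log_mul (by positivity) (by positivity), log_mul (by positivity) (by positivity), log_exp,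
    log_exp, log_pow]
  push_cast
  have J0 : (0 : ℝ) ≤ J := Nat.cast_nonneg J
  have X0 : (0 : ℝ) ≤ X := Nat.cast_nonneg X
  have c1 : (J : ℝ) ≤ t / R := by rw [le_div_iff₀ (by linarith)]; nlinarith
  have c2 : J * (2 * (γ + κ * (2 - 2 / R)) - 2 * log (min κ 1)) ≤
      t / R * (2 * (γ + 2 * κ) - 2 * log (min κ 1)) :=
    mul_le_mul c1 (by linarith) (by linarith) (by positivity)
  have c3 : (t - (2 * X + R + 1) - (l + 1)) * (γ + κ * (2 - 2 / R)) ≤
      J * (l + 1) * (γ + κ * (2 - 2 / R)) := mul_le_mul_of_nonneg_right (by linarith) β0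
  have c4 : (γ - (2 * γ + 6 * κ - 2 * log (min κ 1)) / R) * t = -(2 * κ * t) +
      t * (γ + κ * (2 - 2 / R)) - t / R * (2 * (γ + 2 * κ) - 2 * log (min κ 1)) := by ring
  rw [c4]
  linarith

theorem nice (ω : KK) (hk : 0 ≤ κ) (hg : 0 ≤ γ) : Nice κ γ (xi ω) :=
  ⟨hk, hg, xi_bd ω, fun x => (xi_meas x).comp (f := fun r => (ω, r)) (by fun_prop)⟩

theorem lyap (ω : KK) (hk : 0 < κ) (hg : 0 ≤ γ) :
    Tendsto (fun t => log (uu κ γ (xi ω) t).toReal / t) atTop (nhds γ) := by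
  have h := nice ω hk.le hg
  refine tendsto_order.2 ⟨fun a ha => ?_, fun a ha => ?_⟩
  · obtain ⟨D, hD⟩ := h.log_lower hk
    obtain ⟨k, hk⟩ := exists_nat_gt (D / ((γ - a) / 2))
    obtain ⟨v, v0, hv⟩ := xi_one ω k
    have r1 : ((16 * 2 ^ k : ℕ) : ℝ) ≤ rr k := by exact_mod_cast rr_ge k
    have r2 : (k : ℝ) < ((2 ^ k : ℕ) : ℝ) := by exact_mod_cast Nat.lt_two_pow_self
    have r3 : (1 : ℝ) ≤ ((2 ^ k : ℕ) : ℝ) := by exact_mod_cast Nat.one_le_two_pow
    rw [Nat.cast_mul, Nat.cast_ofNat] at r1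
    have r4 : (rr k : ℝ) ≤ (rr k : ℝ) ^ 6 := le_self_pow₀ (by linarith) (by norm_num)
    have s1 : √2 ≤ 2 := sqrt_le_iff.2 ⟨by norm_num, by norm_num⟩
    have s0 := sqrt_nonneg 2
    obtain ⟨c, hc⟩ := hD (rr k ^ 6 + √2) v (2 ^ k) (by linarith) Nat.one_le_two_pow v0
      (fun x r p q => hv x r p (q.trans (by
        calc _ ≤ (rr k / 4 : ℝ) * (2 * rr k ^ 6) :=
              mul_le_mul (by linarith) (by linarith) (by positivity) (by positivity)
          _ = _ := by ring)))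
    have d1 : D / ((2 ^ k : ℕ) : ℝ) < (γ - a) / 2 := by
      rw [div_lt_iff₀ (by linarith)] at hk ⊢
      nlinarith
    filter_upwards [hc, eventually_gt_atTop 0, eventually_ge_atTop (c / ((γ - a) / 2))] with t p q u
    rw [div_le_iff₀ (by linarith)] at u
    rw [lt_div_iff₀ q]
    nlinarith
  · filter_upwards [eventually_gt_atTop 0] with t q
    rw [div_lt_iff₀ q]
    have p := ENNReal.toReal_le_of_le_ofReal (exp_pos _).le (h.uu_le q.le)
    refine lt_of_le_of_lt ?_ (mul_lt_mul_of_pos_right ha q)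
    rcases (ENNReal.toReal_nonneg (a := uu κ γ (xi ω) t)).eq_or_lt with e | e
    · rw [← e, log_zero]; positivity
    · exact (log_le_iff_le_exp e).2 p

theorem not_const : ¬ ∃ c, ∀ᵐ ω ∂PP, ∀ x t, xi ω x t = c := by
  rintro ⟨c, hc⟩
  obtain ⟨ω, hω⟩ := hc.exists
  obtain ⟨v, -, hv⟩ := xi_one ω 0
  have : c = 1 := by rw [← hω 0 (-v)]; exact hv _ _ (by simp) (by simp; positivity)
  have e : ∫ ω, xi ω 0 0 ∂PP = ∫ _, (1 : ℝ) ∂PP :=
    integral_congr_ae (hc.mono fun ω h => (h 0 0).trans this)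
  have := rho_le
  rw [e] at this
  norm_num at this

end Pool.Agent.H.MP_e6ac48_pr
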